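import Mathlib
import Pool.Agent.V11167.BrpDefs
import Pool.Agent.V11167.BrpB

/-!
# A generically rigid braced polygon with a strictly convex flexible configuration
-/

namespace Pool.Agent.Results.MP_ab14aa_co.ConvexDixon

open Pool.Agent.V11167.Brp

/-- There is a braced octagon graph `G` (a graph on `0, …, 7` which contains the cycle
`0, 1, …, 7`) that is generically rigid in the plane and has a strictly convex configuration `p` for
which the bar framework `(G, p)` is flexible. -/
theorem result :
    ∃ G : SimpleGraph (ZMod 8), IsBracedPolygon G ∧ GenericallyRigid G ∧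
      ∃ p : ZMod 8 → ℂ, StrictlyConvex p ∧ Flexible G p :=
  ⟨G, isBraced, genericallyRigid, pp, strictlyConvex, flexible⟩

end Pool.Agent.Results.MP_ab14aa_co.ConvexDixon
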